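import Mathlib

set_option autoImplicit false

namespace Pool.Agent.H.MP_7e30a6_pr

open Finset MeasureTheory

/-- levels with a single child -/
def PL (i : ℕ) : Prop := ∃ m, 7 * 2 ^ m ≤ i ∧ i < 8 * 2 ^ m

open Classical in
noncomputable def dd (i : ℕ) : ℕ := if PL i then 1 else 65536

noncomputable def NN (j : ℕ) : ℕ := ∏ i ∈ range j, dd i

lemma dd_pos (i : ℕ) : 0 < dd i := by unfold dd; split_ifs <;> norm_num
lemma dd_le (i : ℕ) : dd i ≤ 65536 := by unfold dd; split_ifs <;> norm_num
lemma NN_pos (j : ℕ) : 0 < NN j := prod_pos fun i _ => dd_pos i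
lemma NN_succ (j : ℕ) : NN (j + 1) = NN j * dd j := prod_range_succ _ _

open Classical in
lemma cnt_le (j : ℕ) : 4 * ((range j).filter PL).card ≤ j := by
  have key : ∀ m, ∀ j ≤ 8 * 2 ^ m, 4 * ((range j).filter PL).card ≤ j := by
    intro m
    induction m with
    | zero =>
      intro j hj
      have h1 : (range j).filter PL ⊆ Ico 7 j := by
        intro i hi
        rw [mem_filter, mem_range] at hi
        obtain ⟨h, m, h1, _⟩ := hi
        have := Nat.one_le_two_pow (n := m)
        rw [mem_Ico]; omega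
      have := card_le_card h1
      rw [Nat.card_Ico] at this
      omega
    | succ m ih =>
      intro j hj
      by_cases h : j ≤ 8 * 2 ^ m
      · exact ih j h
      have h1 : (range j).filter PL ⊆ (range (8 * 2 ^ m)).filter PL ∪ Ico (14 * 2 ^ m) j := by
        intro i hi
        rw [mem_filter, mem_range] at hi
        rw [mem_union, mem_filter, mem_range, mem_Ico]
        by_cases h2 : i < 8 * 2 ^ m
        · exact Or.inl ⟨h2, hi.2⟩
        · obtain ⟨h3, m', h4, h5⟩ := hi
          refine Or.inr ⟨?_, h3⟩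
          rcases Nat.lt_or_ge m m' with h6 | h6
          · have := Nat.pow_le_pow_right (n := 2) (by norm_num) (Nat.succ_le_of_lt h6)
            rw [pow_succ] at this
            omega
          · have := Nat.pow_le_pow_right (n := 2) (by norm_num) h6
            omega
      have h2 := (card_le_card h1).trans (card_union_le _ _)
      have h3 := ih _ le_rfl
      rw [Nat.card_Ico] at h2
      rw [pow_succ] at hj
      omega
  exact key j j (by have := Nat.lt_two_pow_self (n := j); omega)

lemma NN_ge (j : ℕ) : 4096 ^ j ≤ NN j := by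
  classical
  have h1 : NN j = 65536 ^ ((range j).filter (fun i => ¬ PL i)).card := by
    unfold NN dd
    rw [prod_ite, prod_const_one, one_mul, prod_const]
  have h2 := card_filter_add_card_filter_not (s := range j) PL
  have h3 := cnt_le j
  rw [card_range] at h2
  rw [h1, show 4096 = 16 ^ 3 by norm_num, show 65536 = 16 ^ 4 by norm_num, ← pow_mul, ← pow_mul]
  exact Nat.pow_le_pow_right (by norm_num) (by omega)

abbrev VV := {v : ℕ × ℕ // v.2 < NN v.1}

def lev (v : VV) : ℕ := v.1.1

noncomputable def par (v : VV) : VV :=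
  ⟨(v.1.1 - 1, v.1.2 / dd (v.1.1 - 1)), by
    obtain ⟨⟨j, x⟩, h⟩ := v
    rcases j with _ | j
    · have : x = 0 := by simpa [NN] using h
      simp [this, NN]
    · simp only [Nat.add_sub_cancel] at h ⊢
      rw [Nat.div_lt_iff_lt_mul (dd_pos j), ← NN_succ]
      exact h⟩

def oo : VV := ⟨(0, 0), NN_pos 0⟩

lemma lev_par (v : VV) : lev (par v) = lev v - 1 := rfl

lemma lev_iter (t : ℕ) (v : VV) : lev (par^[t] v) = lev v - t := by
  induction t with
  | zero => rfl
  | succ t ih => rw [Function.iterate_succ_apply', lev_par, ih]; omega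

lemma eq_oo {v : VV} (h : lev v = 0) : v = oo := by
  obtain ⟨⟨j, x⟩, hx⟩ := v
  obtain rfl : j = 0 := h
  obtain rfl : x = 0 := by simpa [NN] using hx
  rfl

noncomputable def Lv (j : ℕ) : Finset VV :=
  (range (NN j)).attach.image fun x => ⟨(j, x.1), mem_range.1 x.2⟩

lemma mem_Lv {j : ℕ} {v : VV} : v ∈ Lv j ↔ lev v = j := by
  simp only [Lv, mem_image, mem_attach, true_and]
  constructor
  · rintro ⟨x, rfl⟩; rfl
  · rintro rfl
    exact ⟨⟨v.1.2, mem_range.2 v.2⟩, rfl⟩

lemma card_Lv (j : ℕ) : (Lv j).card = NN j := by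
  rw [Lv, card_image_of_injective, card_attach, card_range]
  intro x y h
  exact Subtype.ext (congrArg (fun v : VV => v.1.2) h)

noncomputable def ch (v : VV) : Finset VV := (Lv (lev v + 1)).filter fun u => par u = v

lemma card_ch (v : VV) : (ch v).card ≤ dd (lev v) := by
  rw [← card_range (dd (lev v))]
  refine card_le_card_of_injOn (fun u => u.1.2 % dd (lev v))
    (fun u _ => mem_coe.2 (mem_range.2 (Nat.mod_lt _ (dd_pos _)))) fun u hu u' hu' h => ?_
  simp only [ch, coe_filter, mem_Lv, Set.mem_setOf_eq] at hu hu'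
  have h1 := congrArg (fun v : VV => v.1.2) (hu.2.trans hu'.2.symm)
  have e1 : u.1.1 - 1 = lev v := by have := hu.1; unfold lev at *; omega
  have e2 : u'.1.1 - 1 = lev v := by have := hu'.1; unfold lev at *; omega
  simp only [par, e1, e2] at h1
  refine Subtype.ext (Prod.ext (hu.1.trans hu'.1.symm) ?_)
  rw [← Nat.div_add_mod u.1.2 (dd (lev v)), ← Nat.div_add_mod u'.1.2 (dd (lev v)), h1]
  exact congrArg _ h

noncomputable def GG : SimpleGraph VV := SimpleGraph.fromRel fun u v => par u = v

lemma adj_cases {u v : VV} (h : GG.Adj u v) : v = par u ∨ v ∈ ch u := by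
  rw [GG, SimpleGraph.fromRel_adj] at h
  rcases h with ⟨h1, h2 | h2⟩
  · exact Or.inl h2.symm
  · refine Or.inr (mem_filter.2 ⟨mem_Lv.2 ?_, h2⟩)
    have h3 := lev_par v
    rw [h2] at h3
    by_contra h4
    have h5 : lev v = 0 := by omega
    exact h1 ((eq_oo (by omega)).trans (eq_oo h5).symm)

lemma adj_par {v : VV} (h : 0 < lev v) : GG.Adj v (par v) := by
  rw [GG, SimpleGraph.fromRel_adj]
  refine ⟨fun h' => ?_, Or.inl rfl⟩
  have := lev_par v
  rw [← h'] at this
  omega

lemma GG_conn : GG.Connected := by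
  have key : ∀ j (v : VV), lev v = j → GG.Reachable v oo := by
    intro j
    induction j with
    | zero => intro v h; rw [eq_oo h]
    | succ j ih =>
      intro v h
      exact (adj_par (by omega)).reachable.trans (ih _ (by rw [lev_par]; omega))
  haveI : Nonempty VV := ⟨oo⟩
  exact ⟨fun u v => (key _ u rfl).trans (key _ v rfl).symm⟩

lemma GG_deg (v : VV) : (GG.neighborSet v).encard ≤ (65537 : ℕ) := by
  classical
  have h : GG.neighborSet v ⊆ ↑(insert (par v) (ch v)) := fun u hu => by
    rw [mem_coe, mem_insert]; exact adj_cases hu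
  refine (Set.encard_le_encard h).trans ?_
  rw [Set.encard_coe_eq_coe_finsetCard]
  exact_mod_cast (card_insert_le _ _).trans (Nat.succ_le_succ ((card_ch v).trans (dd_le _)))

lemma VV_inf : Infinite VV :=
  Infinite.of_injective (fun j : ℕ => (⟨(j, 0), NN_pos j⟩ : VV))
    fun _ _ h => congrArg (fun v : VV => v.1.1) h

lemma desc_card (J : ℕ) : ∀ t ≤ J, ∀ a : VV,
    ((Lv J).filter fun y => par^[t] y = a).card * NN (J - t) ≤ NN J := by
  intro t
  induction t with
  | zero =>
    intro _ a
    have : ((Lv J).filter fun y => par^[0] y = a).card ≤ 1 :=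
      card_le_one.2 fun x hx y hy => (mem_filter.1 hx).2.trans (mem_filter.1 hy).2.symm
    exact (Nat.mul_le_mul_right _ this).trans (by simp)
  | succ t ih =>
    intro ht a
    by_cases ha : lev a = J - (t + 1)
    · have h1 : ((Lv J).filter fun y => par^[t + 1] y = a)
          ⊆ (ch a).biUnion fun b => (Lv J).filter fun y => par^[t] y = b := by
        intro y hy
        rw [mem_filter, Function.iterate_succ_apply'] at hy
        refine mem_biUnion.2 ⟨par^[t] y, mem_filter.2 ⟨mem_Lv.2 ?_, hy.2⟩, mem_filter.2 ⟨hy.1, rfl⟩⟩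
        rw [lev_iter, mem_Lv.1 hy.1]; omega
      have h2 := (card_le_card h1).trans card_biUnion_le
      have h3 : (∑ b ∈ ch a, ((Lv J).filter fun y => par^[t] y = b).card) * NN (J - t)
          ≤ dd (J - (t + 1)) * NN J := by
        rw [sum_mul]
        refine (sum_le_card_nsmul _ _ _ fun b _ => ih (by omega) b).trans ?_
        rw [smul_eq_mul, ← ha]
        exact Nat.mul_le_mul_right _ (card_ch a)
      rw [show J - t = J - (t + 1) + 1 by omega, NN_succ] at h3
      refine Nat.le_of_mul_le_mul_left ?_ (dd_pos (J - (t + 1)))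
      refine le_trans ?_ h3
      rw [mul_comm, mul_assoc]
      exact Nat.mul_le_mul_right _ h2
    · rw [filter_eq_empty_iff.2, card_empty, zero_mul]
      · exact Nat.zero_le _
      · rintro y hy rfl
        exact ha (by rw [lev_iter, mem_Lv.1 hy])

lemma amen (H : GG.Subgraph) (hH : H.verts.Nonempty) (ε : ℝ) (hε : 0 < ε) :
    ∃ K : Finset VV, K.Nonempty ∧ (↑K : Set VV) ⊆ H.verts ∧
      (({e : VV × VV | e.1 ∈ K ∧ e.2 ∉ K ∧ H.Adj e.1 e.2}.ncard : ℕ) : ℝ) ≤ ε * K.card := by
  classical
  obtain ⟨v0, hv0⟩ := hH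
  obtain ⟨m0, hm0⟩ := exists_nat_ge (2 / ε)
  obtain ⟨m, hm⟩ : ∃ m, m = m0 + lev v0 := ⟨_, rfl⟩
  have hm1 : m < 2 ^ m := Nat.lt_two_pow_self
  have inv : ∀ u, Relation.ReflTransGen H.Adj v0 u → u ∈ H.verts ∧
      ∀ t, 7 * 2 ^ m ≤ lev u - t → par^[t] u ∈ H.verts := by
    intro u hu
    induction hu with
    | refl => exact ⟨hv0, fun t ht => by omega⟩
    | @tail x y _ hxy ih =>
      refine ⟨H.edge_vert hxy.symm, fun t ht => ?_⟩
      rcases adj_cases (H.adj_sub hxy) with h | h
      · subst h
        rw [← Function.iterate_succ_apply]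
        exact ih.2 _ (by rw [lev_par] at ht; omega)
      · rw [ch, mem_filter, mem_Lv] at h
        rcases t with _ | t
        · exact H.edge_vert hxy.symm
        · rw [Function.iterate_succ_apply, h.2]
          exact ih.2 _ (by omega)
  by_cases hc : ∃ u, Relation.ReflTransGen H.Adj v0 u ∧ 8 * 2 ^ m ≤ lev u
  · obtain ⟨u0, h1, h2⟩ := hc
    obtain ⟨u, hu⟩ : ∃ u, u = par^[lev u0 - 8 * 2 ^ m] u0 := ⟨_, rfl⟩
    have lu : lev u = 8 * 2 ^ m := by rw [hu, lev_iter]; omega
    have inj : Set.InjOn (fun t => par^[t + 1] u) (range (2 ^ m)) := by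
      intro t ht t' ht' h
      have := congrArg lev h
      simp only [coe_range, Set.mem_Iio] at ht ht'
      simp only [lev_iter, lu] at this
      omega
    refine ⟨(range (2 ^ m)).image fun t => par^[t + 1] u, by simp, ?_, ?_⟩
    · intro x hx
      obtain ⟨t, ht, rfl⟩ := mem_image.1 hx
      rw [mem_range] at ht
      rw [hu, ← Function.iterate_add_apply]
      exact (inv u0 h1).2 _ (by omega)
    · rw [card_image_of_injOn inj, card_range]
      have h3 : {e : VV × VV | e.1 ∈ (range (2 ^ m)).image (fun t => par^[t + 1] u) ∧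
          e.2 ∉ (range (2 ^ m)).image (fun t => par^[t + 1] u) ∧ H.Adj e.1 e.2}
          ⊆ {(par^[2 ^ m] u, par^[2 ^ m + 1] u), (par u, u)} := by
        rintro ⟨x, y⟩ ⟨h4, h5, h6⟩
        obtain ⟨t, ht, rfl⟩ := mem_image.1 h4
        rw [mem_range] at ht
        dsimp only at h5 h6
        rcases adj_cases (H.adj_sub h6) with h | h
        · rw [← Function.iterate_succ_apply' par] at h
          by_cases h7 : t + 1 < 2 ^ m
          · exact absurd (mem_image.2 ⟨t + 1, mem_range.2 h7, h.symm⟩) h5
          · have h8 : t + 1 = 2 ^ m := by omega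
            rw [h, h8]
            exact Or.inl rfl
        · have h7 := card_ch (par^[t + 1] u)
          rw [dd, if_pos ⟨m, by rw [lev_iter, lu]; omega, by rw [lev_iter, lu]; omega⟩] at h7
          have h8 : y = par^[t] u := card_le_one.1 h7 _ h _ (mem_filter.2 ⟨mem_Lv.2 (by
            rw [lev_iter, lev_iter]; omega), (Function.iterate_succ_apply' par t u).symm⟩)
          rcases t with _ | t
          · rw [h8]
            exact Or.inr rfl
          · exact absurd (mem_image.2 ⟨t, mem_range.2 (by omega), h8.symm⟩) h5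
      have h4 := (Set.ncard_le_ncard h3 (Set.toFinite _)).trans ((Set.ncard_insert_le _ _).trans (by rw [Set.ncard_singleton]) : _ ≤ 2)
      have h5 : (m0 : ℝ) ≤ ((2 ^ m : ℕ) : ℝ) := by exact_mod_cast (by omega : m0 ≤ 2 ^ m)
      rw [div_le_iff₀ hε] at hm0
      refine (Nat.cast_le.2 h4).trans ?_
      push_cast at h5 ⊢
      nlinarith
  · push Not at hc
    refine ⟨((range (8 * 2 ^ m)).biUnion Lv).filter (Relation.ReflTransGen H.Adj v0), ?_, ?_, ?_⟩
    · exact ⟨v0, mem_filter.2 ⟨mem_biUnion.2 ⟨_, mem_range.2 (hc v0 .refl), mem_Lv.2 rfl⟩, .refl⟩⟩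
    · exact fun x hx => (inv x (mem_filter.1 hx).2).1
    · rw [Set.eq_empty_of_forall_notMem (s := {e : VV × VV | _}), Set.ncard_empty, Nat.cast_zero]
      · positivity
      · rintro ⟨x, y⟩ ⟨h4, h5, h6⟩
        have h7 := (mem_filter.1 h4).2.tail h6
        exact h5 (mem_filter.2 ⟨mem_biUnion.2 ⟨_, mem_range.2 (hc y h7), mem_Lv.2 rfl⟩, h7⟩)

end Pool.Agent.H.MP_7e30a6_pr
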