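import Pool.Agent.H.MP_7e30a6_pr.A

set_option autoImplicit false

namespace Pool.Agent.H.MP_7e30a6_pr

open Finset MeasureTheory

variable {Ω : Type} [MeasurableSpace Ω] (P : Measure Ω) [IsProbabilityMeasure P]

lemma cheb {ι : Type} (s : Finset ι) (A : ι → Set Ω) (hA : ∀ i, MeasurableSet (A i)) :
    (∑ i ∈ s, P.real (A i)) ^ 2 * P.real {w | ∀ i ∈ s, w ∉ A i}
      ≤ ∑ i ∈ s, ∑ j ∈ s, P.real (A i ∩ A j) - (∑ i ∈ s, P.real (A i)) ^ 2 := by
  set μ := ∑ i ∈ s, P.real (A i) with hμ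
  have hB : MeasurableSet {w | ∀ i ∈ s, w ∉ A i} := by
    have : {w | ∀ i ∈ s, w ∉ A i} = ⋂ i ∈ s, (A i)ᶜ := by ext; simp
    rw [this]
    exact s.measurableSet_biInter fun i _ => (hA i).compl
  have I : ∀ B : Set Ω, MeasurableSet B → Integrable (B.indicator (1 : Ω → ℝ)) P :=
    fun B hB => (integrable_const (1 : ℝ)).indicator hB
  have I1 : Integrable (fun w => ∑ i ∈ s, ∑ j ∈ s, (A i ∩ A j).indicator (1 : Ω → ℝ) w) P :=
    integrable_finset_sum _ fun i _ => integrable_finset_sum _ fun j _ => I _ ((hA i).inter (hA j))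
  have I2 : Integrable (fun w => 2 * μ * ∑ i ∈ s, (A i).indicator (1 : Ω → ℝ) w) P :=
    (integrable_finset_sum _ fun i _ => I _ (hA i)).const_mul _
  have h := integral_mono (μ := P) ((I _ hB).const_mul (μ ^ 2))
    ((I1.sub I2).add (integrable_const (μ ^ 2))) (by
      intro w
      have e : ∑ i ∈ s, ∑ j ∈ s, (A i ∩ A j).indicator (1 : Ω → ℝ) w
          = (∑ i ∈ s, (A i).indicator (1 : Ω → ℝ) w) ^ 2 := by
        rw [sq, sum_mul_sum]
        refine sum_congr rfl fun i _ => sum_congr rfl fun j _ => ?_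
        rw [Set.inter_indicator_one]; rfl
      simp only [Pi.add_apply, Pi.sub_apply, e]
      by_cases hw : w ∈ {w | ∀ i ∈ s, w ∉ A i}
      · rw [Set.indicator_of_mem hw, sum_eq_zero fun i hi => Set.indicator_of_notMem (hw i hi) _]
        simp
      · rw [Set.indicator_of_notMem hw]
        nlinarith [sq_nonneg (∑ i ∈ s, (A i).indicator (1 : Ω → ℝ) w - μ)])
  rw [integral_const_mul, integral_indicator_one hB, integral_add' (I1.sub I2) (integrable_const _),
    integral_sub' I1 I2, integral_const_mul, integral_finset_sum _ (fun i _ => I _ (hA i)),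
    integral_finset_sum _ (fun i _ => integrable_finset_sum _ fun j _ => I _ ((hA i).inter (hA j)))]
    at h
  simp only [integral_indicator_one (hA _), integral_const, probReal_univ, one_smul] at h
  rw [sum_congr rfl fun i _ => integral_finset_sum s (fun j _ => I _ ((hA i).inter (hA j)))] at h
  simp only [integral_indicator_one ((hA _).inter (hA _))] at h
  rw [← hμ] at h
  nlinarith

/-- all edges of `F` are open and an open trail of length `L` avoiding `F` leads from `x` to `T` -/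
def RR {W : Type} (Γ : SimpleGraph W) (T : Set W) (ξ : Ω → Set (Sym2 W)) (L : ℕ) (x : W)
    (F : Finset (Sym2 W)) : Set Ω :=
  {w | (∀ e ∈ F, e ∈ ξ w) ∧ ∃ y ∈ T, ∃ q : Γ.Walk x y, q.length = L ∧ q.IsTrail ∧
    ∀ e ∈ q.edges, e ∉ F ∧ e ∈ ξ w}

lemma RR_le {W : Type} (Γ : SimpleGraph W) (T : Set W) (ξ : Ω → Set (Sym2 W)) (p l : ℝ)
    (hp : 0 ≤ p) (hl : 0 ≤ l) (ψ : W → ℝ) (h0 : ∀ x, 0 ≤ ψ x) (h1 : ∀ x ∈ T, 1 ≤ ψ x)
    (hF : ∀ F : Finset (Sym2 W), P.real {w | ∀ e ∈ F, e ∈ ξ w} = p ^ F.card)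
    (hnb : ∀ x, ∃ S : Finset W, (∀ y, Γ.Adj x y → y ∈ S) ∧ ∑ y ∈ S, ψ y ≤ l * ψ x) (L : ℕ) :
    ∀ x F, P.real (RR Γ T ξ L x F) ≤ p ^ F.card * (p * l) ^ L * ψ x := by
  classical
  induction L with
  | zero =>
    intro x F
    by_cases hx : x ∈ T
    · refine (measureReal_mono (s₂ := {w | ∀ e ∈ F, e ∈ ξ w}) (fun w hw => hw.1)).trans ?_
      rw [hF, pow_zero, mul_one]
      exact le_mul_of_one_le_right (by positivity) (h1 x hx)
    · rw [Set.eq_empty_of_forall_notMem (s := RR Γ T ξ 0 x F), measureReal_empty]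
      · have := h0 x
        positivity
      · rintro w ⟨_, y, hy, q, h2, _⟩
        exact hx (q.eq_of_length_eq_zero h2 ▸ hy)
  | succ L ih =>
    intro x F
    obtain ⟨S, hS, hsum⟩ := hnb x
    have h2 : RR Γ T ξ (L + 1) x F ⊆ ⋃ y ∈ S.filter (fun y => s(x, y) ∉ F),
        RR Γ T ξ L y (insert s(x, y) F) := by
      rintro w ⟨h3, z, hz, q, h4, h5, h6⟩
      cases q with
      | nil => simp at h4
      | @cons _ y _ hadj q =>
        rw [SimpleGraph.Walk.isTrail_cons] at h5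
        simp only [SimpleGraph.Walk.edges_cons, List.forall_mem_cons] at h6
        refine Set.mem_biUnion (mem_coe.2 (mem_filter.2 ⟨hS y hadj, h6.1.1⟩))
          ⟨?_, z, hz, q, by simpa using h4, h5.1, fun e he => ⟨?_, (h6.2 e he).2⟩⟩
        · intro e he
          rcases mem_insert.1 he with rfl | he
          · exact h6.1.2
          · exact h3 e he
        · rw [mem_insert, not_or]
          exact ⟨fun h => h5.2 (h ▸ he), (h6.2 e he).1⟩
    refine (measureReal_mono h2 (measure_ne_top _ _)).trans ((measureReal_biUnion_finset_le _ _).trans ?_)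
    calc _ ≤ ∑ y ∈ S.filter (fun y => s(x, y) ∉ F), p ^ (F.card + 1) * (p * l) ^ L * ψ y := by
          refine sum_le_sum fun y hy => ?_
          rw [← card_insert_of_notMem (mem_filter.1 hy).2]
          exact ih _ _
      _ ≤ ∑ y ∈ S, p ^ (F.card + 1) * (p * l) ^ L * ψ y :=
          sum_le_sum_of_subset_of_nonneg (filter_subset _ _) fun y _ _ => by
            have := h0 y
            positivity
      _ ≤ p ^ (F.card + 1) * (p * l) ^ L * (l * ψ x) := by
          rw [← mul_sum]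
          exact mul_le_mul_of_nonneg_left hsum (by positivity)
      _ = _ := by ring

noncomputable abbrev ZZ : SimpleGraph (VV × ℤ) := SimpleGraph.boxProd GG (SimpleGraph.hasse ℤ)

lemma sum_ins {α : Type} [DecidableEq α] (a : α) (s : Finset α) (f : α → ℝ) (h : 0 ≤ f a) :
    ∑ x ∈ insert a s, f x ≤ f a + ∑ x ∈ s, f x := by
  by_cases ha : a ∈ s
  · rw [insert_eq_of_mem ha]; linarith
  · rw [sum_insert ha]

lemma hasse_adj {m n : ℤ} : (SimpleGraph.hasse ℤ).Adj m n ↔ n = m + 1 ∨ n = m - 1 := by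
  rw [SimpleGraph.hasse_adj, Order.covBy_iff_add_one_eq, Order.covBy_iff_add_one_eq]
  omega

lemma nb (x : VV × ℤ) : ∃ S : Finset (VV × ℤ), (∀ y, ZZ.Adj x y → y ∈ S) ∧
    ∑ y ∈ S, (1 / 256 : ℝ) ^ lev y.1 ≤ 514 * (1 / 256 : ℝ) ^ lev x.1 := by
  classical
  obtain ⟨v, n⟩ := x
  refine ⟨insert (par v, n) (insert (v, n + 1) (insert (v, n - 1) ((ch v).image fun u => (u, n)))),
    ?_, ?_⟩
  · rintro ⟨u, m⟩ h
    rw [SimpleGraph.boxProd_adj] at h
    simp only [mem_insert, mem_image, Prod.mk.injEq]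
    rcases h with ⟨h1, h2⟩ | ⟨h1, h2⟩
    · rcases adj_cases h1 with h | h
      · exact Or.inl ⟨h, h2.symm⟩
      · exact Or.inr (Or.inr (Or.inr ⟨u, h, rfl, h2⟩))
    · rcases hasse_adj.1 h1 with h | h
      · exact Or.inr (Or.inl ⟨h2.symm, h⟩)
      · exact Or.inr (Or.inr (Or.inl ⟨h2.symm, h⟩))
  · refine (sum_ins _ _ _ (by positivity)).trans ?_
    refine (add_le_add_right (sum_ins _ _ _ (by positivity)) _).trans ?_
    refine (add_le_add_right (add_le_add_right (sum_ins _ _ _ (by positivity)) _) _).trans ?_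
    rw [sum_image fun _ _ _ _ h => (Prod.ext_iff.1 h).1]
    have h1 : ∑ u ∈ ch v, (1 / 256 : ℝ) ^ lev u ≤ 256 * (1 / 256 : ℝ) ^ lev v := by
      rw [sum_congr rfl fun u hu => by rw [mem_Lv.1 (mem_filter.1 hu).1], sum_const, nsmul_eq_mul,
        pow_succ]
      have h2 : ((ch v).card : ℝ) ≤ 65536 := by exact_mod_cast (card_ch v).trans (dd_le _)
      have h3 : (0 : ℝ) ≤ (1 / 256) ^ lev v := by positivity
      nlinarith
    have h2 : (1 / 256 : ℝ) ^ lev (par v) ≤ 256 * (1 / 256 : ℝ) ^ lev v := by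
      rw [lev_par]
      rcases lev v with _ | j
      · norm_num
      · rw [Nat.add_sub_cancel, pow_succ]; linarith
    dsimp only at h1 h2 ⊢
    linarith

lemma walk_len {x y : VV × ℤ} (q : ZZ.Walk x y) : |y.2 - x.2| ≤ q.length := by
  induction q with
  | nil => simp
  | @cons a b c h q ih =>
    rw [SimpleGraph.boxProd_adj] at h
    rw [SimpleGraph.Walk.length_cons]
    push_cast
    rw [abs_le] at ih ⊢
    rcases h with ⟨_, h2⟩ | ⟨h1, _⟩
    · omega
    · rcases hasse_adj.1 h1 with h | h <;> omega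

lemma fibre_fin (ξ : Ω → Set (Sym2 (VV × ℤ))) (p : ℝ) (hp : 0 ≤ p) (hp' : p ≤ 1 / 600)
    (hF : ∀ F : Finset (Sym2 (VV × ℤ)), P.real {w | ∀ e ∈ F, e ∈ ξ w} = p ^ F.card) (n : ℤ) :
    ∀ᵐ w ∂P, {m : ℤ | (ZZ ⊓ SimpleGraph.fromEdgeSet (ξ w)).Reachable (oo, n) (oo, m)}.Finite := by
  have h1 : ∀ L, P (RR ZZ {y | y.1 = oo} ξ L (oo, n) ∅) ≤ ENNReal.ofReal ((p * 514) ^ L) := by
    intro L
    have := RR_le P ZZ {y | y.1 = oo} ξ p 514 hp (by norm_num) (fun y => (1 / 256 : ℝ) ^ lev y.1)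
      (fun _ => by positivity) (fun y hy => by rw [show y.1 = oo from hy]; simp [lev, oo]) hF nb L
      (oo, n) ∅
    rw [← ofReal_measureReal]
    exact ENNReal.ofReal_le_ofReal (by simpa [lev, oo] using this)
  have h2 : ∑' L, P (RR ZZ {y | y.1 = oo} ξ L (oo, n) ∅) ≠ ⊤ := by
    refine ne_top_of_le_ne_top ?_ (ENNReal.tsum_le_tsum h1)
    rw [← ENNReal.ofReal_tsum_of_nonneg (fun _ => by positivity)
      (summable_geometric_of_lt_one (by positivity) (by linarith))]
    exact ENNReal.ofReal_ne_top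
  filter_upwards [ae_finite_setOfPred_mem h2] with w hw
  obtain ⟨B, hB⟩ := hw.bddAbove
  refine (Set.finite_Icc (n - B) (n + B)).subset fun m hm => ?_
  obtain ⟨q, hq⟩ := hm.exists_isPath
  have h3 : ∀ e ∈ q.edges, e ∈ ZZ.edgeSet := fun e he =>
    SimpleGraph.edgeSet_mono inf_le_left (q.edges_subset_edgeSet he)
  have h4 := walk_len (q.transfer ZZ h3)
  have h5 : (q.transfer ZZ h3).length ≤ B := hB ⟨by simp, _, rfl, q.transfer ZZ h3, rfl,
    (hq.transfer h3).isTrail, fun e he => ⟨by simp, by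
      rw [SimpleGraph.Walk.edges_transfer] at he
      have := SimpleGraph.edgeSet_mono inf_le_right (q.edges_subset_edgeSet he)
      rw [SimpleGraph.edgeSet_fromEdgeSet] at this
      exact this.1⟩⟩
  rw [abs_le] at h4
  rw [Set.mem_Icc]
  dsimp only at h4
  omega

end Pool.Agent.H.MP_7e30a6_pr
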