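import Pool.Agent.H.MP_7e30a6_pr.B

set_option autoImplicit false

namespace Pool.Agent.H.MP_7e30a6_pr

open Finset MeasureTheory Classical

variable {Ω : Type} [MeasurableSpace Ω] (P : Measure Ω) [IsProbabilityMeasure P]

noncomputable def EE (J : ℕ) (n : ℤ) (x : VV) : Finset (Sym2 (VV × ℤ)) :=
  (range J).image fun t => s((par^[t] x, n), (par^[t + 1] x, n))

lemma edge_eq {J t t' : ℕ} {x y : VV} {n n' : ℤ} (ht : t < J) (ht' : t' < J) (hx : lev x = J)
    (hy : lev y = J)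
    (h : s((par^[t] x, n), (par^[t + 1] x, n)) = s((par^[t'] y, n'), (par^[t' + 1] y, n'))) :
    n = n' ∧ t = t' ∧ par^[t] x = par^[t] y := by
  rcases Sym2.eq_iff.1 h with ⟨h1, _⟩ | ⟨h1, h2⟩
  · rw [Prod.mk.injEq] at h1
    have := congrArg lev h1.1
    rw [lev_iter, lev_iter] at this
    obtain rfl : t = t' := by omega
    exact ⟨h1.2, rfl, h1.1⟩
  · have h3 := congrArg (fun a => lev a.1) h1
    have h4 := congrArg (fun a => lev a.1) h2
    simp only [lev_iter] at h3 h4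
    omega

lemma card_EE {J : ℕ} (n : ℤ) {x : VV} (hx : lev x = J) : (EE J n x).card = J := by
  rw [EE, card_image_of_injOn, card_range]
  intro t ht t' ht' h
  exact (edge_eq (mem_range.1 ht) (mem_range.1 ht') hx hx h).2.1

noncomputable def gg (J : ℕ) (x y : VV) : ℝ :=
  ∑ t ∈ range J, if par^[t] y = par^[t] x then (1000 : ℝ) ^ (J - t) else 0

lemma inter_le {J : ℕ} (n n' : ℤ) {x y : VV} (hx : lev x = J) (hy : lev y = J) :
    (1000 : ℝ) ^ (EE J n x ∩ EE J n' y).card ≤ 1 + if n = n' then gg J x y else 0 := by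
  have g0 : ∀ t ∈ range J, (0 : ℝ) ≤ if par^[t] y = par^[t] x then (1000 : ℝ) ^ (J - t) else 0 :=
    fun t _ => by split_ifs <;> positivity
  set T := (range J).filter fun t => n = n' ∧ par^[t] y = par^[t] x with hT
  have h1 : (EE J n x ∩ EE J n' y).card ≤ T.card := by
    refine le_trans (card_le_card ?_) (card_image_le (s := T)
      (f := fun t => s((par^[t] x, n), (par^[t + 1] x, n))))
    intro e he
    rw [mem_inter, EE, EE, mem_image, mem_image] at he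
    obtain ⟨⟨t, ht, rfl⟩, t', ht', h⟩ := he
    have := edge_eq (mem_range.1 ht) (mem_range.1 ht') hx hy h.symm
    exact mem_image.2 ⟨t, mem_filter.2 ⟨ht, this.1, this.2.2.symm⟩, rfl⟩
  rcases T.eq_empty_or_nonempty with h | h
  · rw [h, card_empty, Nat.le_zero] at h1
    rw [h1, pow_zero, le_add_iff_nonneg_right]
    split_ifs
    · exact sum_nonneg g0
    · exact le_rfl
  · have h2 := mem_filter.1 (T.min'_mem h)
    have h3 : T.card ≤ J - T.min' h := by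
      rw [← Nat.card_Ico]
      exact card_le_card fun t ht => mem_Ico.2 ⟨T.min'_le t ht, mem_range.1 (mem_filter.1 ht).1⟩
    have h4 := single_le_sum g0 h2.1
    rw [if_pos h2.2.2] at h4
    rw [if_pos h2.2.1, gg]
    have h5 : (1000 : ℝ) ^ (EE J n x ∩ EE J n' y).card ≤ 1000 ^ (J - T.min' h) :=
      pow_le_pow_right₀ (by norm_num) (h1.trans h3)
    linarith

lemma geo (J : ℕ) : ∑ t ∈ range J, (1 / 4 : ℝ) ^ (J - t) ≤ 1 := by
  induction J with
  | zero => simp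
  | succ J ih =>
    rw [sum_congr rfl fun t ht => by
      rw [show J + 1 - t = J - t + 1 by have := mem_range.1 ht; omega, pow_succ], ← sum_mul,
      sum_range_succ, Nat.sub_self, pow_zero]
    linarith

lemma sum_gg (J : ℕ) (x : VV) : ∑ y ∈ Lv J, gg J x y ≤ NN J := by
  unfold gg
  rw [sum_comm]
  have h : ∀ t ∈ range J, ∑ y ∈ Lv J, (if par^[t] y = par^[t] x then (1000 : ℝ) ^ (J - t) else 0)
      ≤ (1 / 4 : ℝ) ^ (J - t) * NN J := by
    intro t ht
    rw [← sum_filter, sum_const, nsmul_eq_mul]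
    have h1 : (((Lv J).filter fun y => par^[t] y = par^[t] x).card : ℝ) * 4096 ^ (J - t) ≤ NN J := by
      exact_mod_cast (Nat.mul_le_mul_left _ (NN_ge _)).trans
        (desc_card J t (mem_range.1 ht).le (par^[t] x))
    have h2 : (1000 : ℝ) ^ (J - t) ≤ (1 / 4 : ℝ) ^ (J - t) * 4096 ^ (J - t) := by
      rw [← mul_pow]
      exact pow_le_pow_left₀ (by norm_num) (by norm_num) _
    have h3 : (0 : ℝ) ≤ (1 / 4 : ℝ) ^ (J - t) := by positivity
    calc _ ≤ _ := mul_le_mul_of_nonneg_left h2 (Nat.cast_nonneg _)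
      _ = (1 / 4 : ℝ) ^ (J - t) * (_ * 4096 ^ (J - t)) := by ring
      _ ≤ _ := mul_le_mul_of_nonneg_left h1 h3
  refine (sum_le_sum h).trans ?_
  rw [← sum_mul]
  exact mul_le_of_le_one_left (Nat.cast_nonneg _) (geo J)

lemma none_le (ξ : Ω → Set (Sym2 (VV × ℤ))) (p : ℝ) (hp : 1 / 1000 ≤ p)
    (hm : ∀ F : Finset (Sym2 (VV × ℤ)), MeasurableSet {w | ∀ e ∈ F, e ∈ ξ w})
    (hF : ∀ F : Finset (Sym2 (VV × ℤ)), P.real {w | ∀ e ∈ F, e ∈ ξ w} = p ^ F.card)
    (N M J : ℕ) (hM : 0 < M) :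
    P.real {w | ∀ i ∈ range M ×ˢ Lv J, w ∉ {w | ∀ e ∈ EE J (N + i.1 : ℕ) i.2, e ∈ ξ w}} ≤ 1 / M := by
  have h := cheb P (range M ×ˢ Lv J) (fun i => {w | ∀ e ∈ EE J (N + i.1 : ℕ) i.2, e ∈ ξ w})
    (fun i => hm _)
  have hp0 : 0 < p := by linarith
  have h1 : ∑ i ∈ range M ×ˢ Lv J, P.real {w | ∀ e ∈ EE J (N + i.1 : ℕ) i.2, e ∈ ξ w}
      = M * NN J * p ^ J := by
    rw [sum_congr rfl fun i hi => by rw [hF, card_EE _ (mem_Lv.1 (mem_product.1 hi).2)], sum_const,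
      card_product, card_range, card_Lv, nsmul_eq_mul, Nat.cast_mul]
  have h2 : ∀ i ∈ range M ×ˢ Lv J, ∑ j ∈ range M ×ˢ Lv J,
      P.real ({w | ∀ e ∈ EE J (N + i.1 : ℕ) i.2, e ∈ ξ w} ∩ {w | ∀ e ∈ EE J (N + j.1 : ℕ) j.2, e ∈ ξ w})
      ≤ (p ^ J) ^ 2 * (M * NN J + NN J) := by
    intro i hi
    have h3 : ∀ j ∈ range M ×ˢ Lv J,
        P.real ({w | ∀ e ∈ EE J (N + i.1 : ℕ) i.2, e ∈ ξ w} ∩ {w | ∀ e ∈ EE J (N + j.1 : ℕ) j.2, e ∈ ξ w})
        ≤ (p ^ J) ^ 2 * (1 + if i.1 = j.1 then gg J i.2 j.2 else 0) := by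
      intro j hj
      have li := mem_Lv.1 (mem_product.1 hi).2
      have lj := mem_Lv.1 (mem_product.1 hj).2
      have e1 : {w | ∀ e ∈ EE J (N + i.1 : ℕ) i.2, e ∈ ξ w} ∩ {w | ∀ e ∈ EE J (N + j.1 : ℕ) j.2, e ∈ ξ w}
          = {w | ∀ e ∈ EE J (N + i.1 : ℕ) i.2 ∪ EE J (N + j.1 : ℕ) j.2, e ∈ ξ w} := by
        ext w
        simp only [Set.mem_inter_iff, Set.mem_setOf_eq, forall_mem_union]
      have e2 := card_union_add_card_inter (EE J (N + i.1 : ℕ) i.2) (EE J (N + j.1 : ℕ) j.2)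
      rw [card_EE _ li, card_EE _ lj] at e2
      have e3 := inter_le (N + i.1 : ℕ) (N + j.1 : ℕ) li lj
      simp only [Nat.cast_inj, Nat.add_left_cancel_iff] at e3
      rw [e1, hF, ← pow_mul, mul_two, ← e2, pow_add, mul_assoc]
      refine le_mul_of_one_le_right (by positivity) (le_trans ?_
        (mul_le_mul_of_nonneg_left e3 (by positivity)))
      rw [← mul_pow]
      exact one_le_pow₀ (by linarith)
    refine (sum_le_sum h3).trans ?_
    rw [← mul_sum, sum_add_distrib, sum_const, card_product, card_range, card_Lv, nsmul_eq_mul,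
      mul_one, Nat.cast_mul, sum_product, sum_comm]
    simp only [sum_ite_eq, if_pos (mem_product.1 hi).1]
    have := sum_gg J i.2
    gcongr
  have h3 := sum_le_sum h2
  rw [sum_const, card_product, card_range, card_Lv, nsmul_eq_mul, Nat.cast_mul] at h3
  rw [h1] at h
  have hM' : (0 : ℝ) < M := by exact_mod_cast hM
  have hN : (0 : ℝ) < NN J := by exact_mod_cast NN_pos J
  have h4 : (0 : ℝ) < M * (NN J * p ^ J) ^ 2 := by positivity
  rw [le_div_iff₀ hM']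
  refine le_of_mul_le_mul_left ?_ h4
  nlinarith

lemma reach_of (S : Set (Sym2 (VV × ℤ))) {J : ℕ} (n : ℤ) {x : VV} (hx : lev x = J)
    (h : ∀ e ∈ EE J n x, e ∈ S) : (ZZ ⊓ SimpleGraph.fromEdgeSet S).Reachable (oo, n) (x, n) := by
  have key : ∀ t ≤ J, (ZZ ⊓ SimpleGraph.fromEdgeSet S).Reachable (par^[t] x, n) (x, n) := by
    intro t
    induction t with
    | zero => exact fun _ => .refl _
    | succ t ih =>
      intro ht
      refine (SimpleGraph.Adj.reachable ?_).symm.trans (ih (by omega))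
      have h1 : ZZ.Adj (par^[t] x, n) (par^[t + 1] x, n) := by
        rw [SimpleGraph.boxProd_adj, Function.iterate_succ_apply']
        exact Or.inl ⟨adj_par (by rw [lev_iter]; omega), rfl⟩
      exact ⟨h1, (SimpleGraph.fromEdgeSet_adj _).2 ⟨h _ (mem_image.2 ⟨t, mem_range.2 ht, rfl⟩), h1.ne⟩⟩
  have := key J le_rfl
  rwa [eq_oo (v := par^[J] x) (by rw [lev_iter]; omega)] at this

lemma surv (ξ : Ω → Set (Sym2 (VV × ℤ))) (p : ℝ) (hp : 1 / 1000 ≤ p)
    (hm : ∀ F : Finset (Sym2 (VV × ℤ)), MeasurableSet {w | ∀ e ∈ F, e ∈ ξ w})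
    (hF : ∀ F : Finset (Sym2 (VV × ℤ)), P.real {w | ∀ e ∈ F, e ∈ ξ w} = p ^ F.card) (N : ℕ) :
    ∀ᵐ w ∂P, ∃ n : ℕ, N ≤ n ∧
      {y | (ZZ ⊓ SimpleGraph.fromEdgeSet (ξ w)).Reachable (oo, (n : ℤ)) y}.Infinite := by
  rw [ae_iff]
  set B := {w | ¬ ∃ n : ℕ, N ≤ n ∧
    {y | (ZZ ⊓ SimpleGraph.fromEdgeSet (ξ w)).Reachable (oo, (n : ℤ)) y}.Infinite} with hB
  have key : ∀ M : ℕ, 0 < M → P B ≤ ENNReal.ofReal (1 / M) := by
    intro M hM
    set D : ℕ → Set Ω := fun J => {w | ∀ i < M, ∀ y,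
      (ZZ ⊓ SimpleGraph.fromEdgeSet (ξ w)).Reachable (oo, ((N + i : ℕ) : ℤ)) y → lev y.1 < J} with hD
    have mono : Monotone D := fun J J' h w hw i hi y hy => (hw i hi y hy).trans_le h
    have h1 : B ⊆ ⋃ J, D J := by
      intro w hw
      simp only [hB, Set.mem_setOf_eq, not_exists, not_and, Set.not_infinite] at hw
      have h2 : (⋃ i ∈ Set.Iio M, {y | (ZZ ⊓ SimpleGraph.fromEdgeSet (ξ w)).Reachable
          (oo, ((N + i : ℕ) : ℤ)) y}).Finite :=
        (Set.finite_Iio M).biUnion fun i _ => hw _ (Nat.le_add_right _ _)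
      obtain ⟨K, hK⟩ := (h2.image fun y => lev y.1).bddAbove
      exact Set.mem_iUnion.2 ⟨K + 1, fun i hi y hy =>
        Nat.lt_succ_of_le (hK ⟨y, Set.mem_biUnion (show i ∈ Set.Iio M from hi) hy, rfl⟩)⟩
    refine (measure_mono h1).trans ?_
    rw [mono.measure_iUnion]
    refine iSup_le fun J => ?_
    rw [← ofReal_measureReal]
    refine ENNReal.ofReal_le_ofReal (le_trans (measureReal_mono ?_ (measure_ne_top _ _))
      (none_le P ξ p hp hm hF N M J hM))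
    intro w hw i hi h
    rw [mem_product, mem_range, mem_Lv] at hi
    exact absurd (hw i.1 hi.1 _ (reach_of _ _ hi.2 h)) (by rw [hi.2]; exact lt_irrefl _)
  have h := (ENNReal.continuous_ofReal.tendsto 0).comp tendsto_one_div_atTop_nhds_zero_nat
  rw [ENNReal.ofReal_zero] at h
  exact le_zero_iff.1 (ge_of_tendsto h (Filter.eventually_atTop.2 ⟨1, fun M hM => key M hM⟩))

lemma many (ξ : Ω → Set (Sym2 (VV × ℤ))) (p : ℝ) (hp : 1 / 1000 ≤ p) (hp' : p ≤ 1 / 600)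
    (h1 : ∀ e, MeasurableSet {w | e ∈ ξ w})
    (h2 : ProbabilityTheory.iIndepSet (fun e => {w | e ∈ ξ w}) P)
    (h3 : ∀ e, P {w | e ∈ ξ w} = ENNReal.ofReal p) :
    ∀ᵐ w ∂P, {C : (ZZ ⊓ SimpleGraph.fromEdgeSet (ξ w)).ConnectedComponent |
      C.supp.Infinite}.Infinite := by
  have e : ∀ F : Finset (Sym2 (VV × ℤ)), {w | ∀ e ∈ F, e ∈ ξ w} = ⋂ e ∈ F, {w | e ∈ ξ w} :=
    fun F => by ext; simp
  have hm : ∀ F : Finset (Sym2 (VV × ℤ)), MeasurableSet {w | ∀ e ∈ F, e ∈ ξ w} :=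
    fun F => e F ▸ F.measurableSet_biInter fun i _ => h1 i
  have hF : ∀ F : Finset (Sym2 (VV × ℤ)), P.real {w | ∀ e ∈ F, e ∈ ξ w} = p ^ F.card := by
    intro F
    rw [e, Measure.real, h2.meas_biInter F]
    simp only [h3, prod_const, ENNReal.toReal_pow, ENNReal.toReal_ofReal (by linarith : 0 ≤ p)]
  filter_upwards [ae_all_iff.2 (surv P ξ p hp hm hF),
    ae_all_iff.2 (fibre_fin P ξ p (by linarith) hp' hF)] with w hw1 hw2 hfin
  have h4 : {n : ℕ | {y | (ZZ ⊓ SimpleGraph.fromEdgeSet (ξ w)).Reachable (oo, (n : ℤ)) y}.Infinite}.Finite := by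
    refine Set.Finite.of_finite_fibers
      (fun n : ℕ => (ZZ ⊓ SimpleGraph.fromEdgeSet (ξ w)).connectedComponentMk (oo, (n : ℤ)))
      (hfin.subset ?_) ?_
    · rintro _ ⟨n, hn, rfl⟩
      refine Set.Infinite.mono (fun y hy => ?_) hn
      exact SimpleGraph.ConnectedComponent.sound (SimpleGraph.Reachable.symm hy)
    · rintro _ ⟨n, _, rfl⟩
      refine ((hw2 n).preimage (f := fun m : ℕ => (m : ℤ)) Nat.cast_injective.injOn).subset ?_
      rintro m ⟨_, hm⟩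
      exact (SimpleGraph.ConnectedComponent.exact hm).symm
  obtain ⟨K, hK⟩ := h4.bddAbove
  obtain ⟨n, h5, h6⟩ := hw1 (K + 1)
  have := hK h6
  omega

end Pool.Agent.H.MP_7e30a6_pr
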